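import Mathlib
import Pool.Agent.H27.G.R_seed8.Helper602.MK.J5b

namespace Pool.Agent.H373R2.NB
open Finset
open Pool.Agent.Helper602.MK (ee)
open Pool.Agent.Helper602.MK.N_J5b (ee_add ee_zero ee_conj norm_ee KD KD_far)

/-- a finite set of integers of small diameter -/
lemma card_le_of_diam (S : Finset ℤ) (R : ℝ) (hR : 0 ≤ R) (h : ∀ a ∈ S, ∀ b ∈ S, ((a : ℝ) - b) ≤ R) :
    (#S : ℝ) ≤ R + 1 := by
  rcases S.eq_empty_or_nonempty with h0 | h0
  · rw [h0, card_empty]; push_cast; linarith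
  · have h5 : S ⊆ Icc (S.min' h0) (S.min' h0 + ⌊R⌋) := by
      intro a ha
      rw [mem_Icc]
      refine ⟨S.min'_le a ha, ?_⟩
      have h1 := h a ha _ (S.min'_mem h0)
      have : a - S.min' h0 ≤ ⌊R⌋ := Int.le_floor.2 (by push_cast; linarith)
      omega
    have h2 := card_le_card h5
    rw [Int.card_Icc] at h2
    have h4 : 0 ≤ ⌊R⌋ := Int.floor_nonneg.2 hR
    have h3 : ((#S : ℕ) : ℤ) ≤ ⌊R⌋ + 1 := by omega
    have h6 : (#S : ℝ) ≤ (⌊R⌋ : ℝ) + 1 := by exact_mod_cast h3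
    linarith [Int.floor_le R]

/-- Vinogradov's lemma on multiples close to integers -/
lemma vinogradov (β : ℝ) (N : ℕ) (D ε : ℝ) (hD : 1 ≤ D) (hε : 0 ≤ ε) (hεD : 16 * ε * D ≤ 1)
    (hND : 16 * D ^ 2 ≤ N) (H : Finset ℕ) (hH : ∀ h ∈ H, h < N ∧ ∃ a : ℤ, |h * β - a| ≤ ε)
    (hcard : N ≤ D * #H) :
    ∃ q : ℕ, 1 ≤ q ∧ (q : ℝ) ≤ 2 * D ∧ ∃ a : ℤ, |q * β - a| ≤ 16 * ε * D ^ 2 / N := by
  have hN0 : (0 : ℝ) < N := lt_of_lt_of_le (by positivity) hND
  have hD0 : 0 < D := by linarith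
  -- first step
  set L := ⌈2 * D⌉₊ with hL
  have hL1 : 2 * D ≤ L := Nat.le_ceil _
  have hL2 : (L : ℝ) < 2 * D + 1 := Nat.ceil_lt_add_one (by positivity)
  have hL0 : 0 < L := by
    have : (0 : ℝ) < L := by linarith
    exact_mod_cast this
  have hpig : ∃ x ∈ H, ∃ y ∈ H, x ≠ y ∧ x / L = y / L := by
    apply exists_ne_map_eq_of_card_lt_of_maps_to (t := range (N / L + 1))
    · rw [card_range]
      have h1 : ((N / L : ℕ) : ℝ) ≤ N / (2 * D) := by
        calc ((N / L : ℕ) : ℝ) ≤ (N : ℝ) / L := Nat.cast_div_le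
          _ ≤ _ := div_le_div_of_nonneg_left hN0.le (by positivity) hL1
      have h2 : (N : ℝ) / D ≤ #H := by
        rw [div_le_iff₀ hD0]; linarith
      have h3 : 1 < (N : ℝ) / (2 * D) := by
        rw [lt_div_iff₀ (by positivity)]
        nlinarith
      have h4 : (N : ℝ) / D = 2 * (N / (2 * D)) := by field_simp
      have h5 : (((N / L + 1 : ℕ)) : ℝ) < #H := by push_cast; linarith
      exact_mod_cast h5
    · intro x hx
      have h1 := (hH x hx).1
      rw [mem_coe, mem_range]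
      exact Nat.lt_succ_of_le (Nat.div_le_div_right h1.le)
  obtain ⟨q, a₀, hq1, hq2, hγ⟩ : ∃ (q : ℕ) (a₀ : ℤ), 1 ≤ q ∧ (q : ℝ) ≤ 2 * D ∧ |q * β - a₀| ≤ 2 * ε := by
    have key : ∀ x ∈ H, ∀ y ∈ H, x < y → x / L = y / L →
        ∃ (q : ℕ) (a₀ : ℤ), 1 ≤ q ∧ (q : ℝ) ≤ 2 * D ∧ |q * β - a₀| ≤ 2 * ε := by
      intro x hx y hy hxy hdiv
      obtain ⟨_, a, ha⟩ := hH x hx
      obtain ⟨_, b, hb⟩ := hH y hy
      refine ⟨y - x, b - a, by omega, ?_, ?_⟩
      · have h1 : y - x < L := by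
          have h2 := Nat.div_add_mod x L
          have h3 := Nat.div_add_mod y L
          have h4 := Nat.mod_lt y hL0
          rw [hdiv] at h2
          omega
        have h2 : ((y - x : ℕ) : ℝ) + 1 ≤ L := by exact_mod_cast h1
        linarith
      · rw [Nat.cast_sub hxy.le]
        push_cast
        have e : ((y : ℝ) - x) * β - (b - a) = (y * β - b) - (x * β - a) := by ring
        rw [e]
        calc |(y * β - b) - (x * β - a)| ≤ |y * β - b| + |x * β - a| := abs_sub _ _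
          _ ≤ _ := by linarith
    obtain ⟨x, hx, y, hy, hne, hdiv⟩ := hpig
    rcases lt_or_gt_of_ne hne with h | h
    · exact key x hx y hy h hdiv
    · exact key y hy x hx h hdiv.symm
  have hq0 : (0 : ℝ) < q := by exact_mod_cast hq1
  refine ⟨q, hq1, hq2, a₀, ?_⟩
  set γ := q * β - a₀ with hγdef
  rcases eq_or_ne γ 0 with hγ0 | hγ0
  · rw [hγ0, abs_zero]; positivity
  have hγpos : 0 < |γ| := abs_pos.2 hγ0
  -- residue class
  obtain ⟨r, hr, hrc⟩ : ∃ r ∈ range q, (#H : ℝ) ≤ q * #(H.filter (fun h => h % q = r)) := by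
    by_contra hcon
    push Not at hcon
    have h1 : #H = ∑ r ∈ range q, #(H.filter (fun h => h % q = r)) :=
      card_eq_sum_card_fiberwise (fun h _ => mem_coe.2 (mem_range.2 (Nat.mod_lt _ hq1)))
    have h2 : (q : ℝ) * #H < q * #H := by
      calc (q : ℝ) * #H = q * ∑ r ∈ range q, (#(H.filter (fun h => h % q = r)) : ℝ) := by
            rw [h1]; push_cast; rfl
        _ = ∑ r ∈ range q, (q : ℝ) * #(H.filter (fun h => h % q = r)) := by rw [mul_sum]
        _ < ∑ r ∈ range q, (#H : ℝ) :=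
            sum_lt_sum_of_nonempty ⟨0, mem_range.2 hq1⟩ hcon
        _ = _ := by rw [sum_const, card_range, nsmul_eq_mul]
    exact lt_irrefl _ h2
  set Hr := H.filter (fun h => h % q = r) with hHr
  -- choose the nearest integers
  have hch : ∀ h : ℕ, ∃ a : ℤ, h ∈ H → |h * β - a| ≤ ε := by
    intro h
    by_cases hh : h ∈ H
    · obtain ⟨_, a, ha⟩ := hH h hh
      exact ⟨a, fun _ => ha⟩
    · exact ⟨0, fun h' => absurd h' hh⟩
  choose A hA using hch
  obtain ⟨mm, hmm⟩ : ∃ mm : ℕ → ℕ, ∀ h, mm h = h / q := ⟨fun h => h / q, fun _ => rfl⟩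
  set bb : ℕ → ℤ := fun h => A h - (mm h : ℤ) * a₀ with hbb
  have hval : ∀ h ∈ Hr, |r * β + (mm h : ℝ) * γ - bb h| ≤ ε := by
    intro h hh
    rw [hHr, mem_filter] at hh
    have h1 := hA h hh.1
    have h2 : (h : ℝ) = q * (mm h : ℝ) + r := by
      have := Nat.div_add_mod h q
      rw [hh.2, ← hmm] at this
      exact_mod_cast this.symm
    have e : r * β + (mm h : ℝ) * γ - bb h = h * β - A h := by
      simp only [hbb]
      rw [hγdef]; push_cast
      rw [h2]; ring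
    rw [e]; exact h1
  have hm : ∀ h ∈ Hr, (mm h : ℝ) ≤ N / q := by
    intro h hh
    rw [hHr, mem_filter] at hh
    have h1 := (hH h hh.1).1
    calc (mm h : ℝ) ≤ (h : ℝ) / q := by rw [hmm]; exact Nat.cast_div_le
      _ ≤ _ := by
        apply div_le_div_of_nonneg_right _ hq0.le
        exact_mod_cast h1.le
  have hNq0 : (0 : ℝ) ≤ N / q := by positivity
  have himg : (#(Hr.image bb) : ℝ) ≤ (|γ| * (N / q) + 2 * ε) + 1 := by
    apply card_le_of_diam _ _ (by positivity)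
    intro a ha b hb
    rw [mem_image] at ha hb
    obtain ⟨h, hh, rfl⟩ := ha
    obtain ⟨h', hh', rfl⟩ := hb
    have h1 := abs_le.1 (hval h hh)
    have h2 := abs_le.1 (hval h' hh')
    have h3 : ((mm h : ℝ) - (mm h' : ℝ)) * γ ≤ |γ| * (N / q) := by
      calc ((mm h : ℝ) - (mm h' : ℝ)) * γ ≤ |((mm h : ℝ) - (mm h' : ℝ)) * γ| := le_abs_self _
        _ = |(mm h : ℝ) - (mm h' : ℝ)| * |γ| := abs_mul _ _
        _ ≤ (N / q) * |γ| := by
            apply mul_le_mul_of_nonneg_right _ (abs_nonneg _)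
            rw [abs_le]
            have m1 := hm h hh
            have m2 := hm h' hh'
            have m3 : (0 : ℝ) ≤ (mm h : ℝ) := Nat.cast_nonneg _
            have m4 : (0 : ℝ) ≤ (mm h' : ℝ) := Nat.cast_nonneg _
            constructor <;> linarith
        _ = _ := mul_comm _ _
    have e : ((bb h : ℝ) - bb h') = ((mm h : ℝ) - (mm h' : ℝ)) * γ -
        ((r * β + (mm h : ℝ) * γ - bb h) - (r * β + (mm h' : ℝ) * γ - bb h')) := by ring
    rw [e]
    linarith
  have hfib : ∀ b ∈ Hr.image bb, #(Hr.filter (fun h => bb h = b)) ≤ ⌊2 * ε / |γ| + 1⌋₊ := by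
    intro b _
    have hinj : Set.InjOn (fun h : ℕ => (mm h : ℤ)) (Hr.filter (fun h => bb h = b) : Finset ℕ) := by
      intro x hx y hy hxy
      rw [mem_coe, mem_filter, hHr, mem_filter] at hx hy
      have h1 := Nat.div_add_mod x q
      have h2 := Nat.div_add_mod y q
      rw [hx.1.2] at h1
      rw [hy.1.2] at h2
      have h3 : x / q = y / q := by
        have h4 : (mm x : ℤ) = mm y := hxy
        rw [← hmm, ← hmm]; exact_mod_cast h4
      rw [h3] at h1
      omega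
    rw [← card_image_of_injOn hinj]
    apply Nat.le_floor
    apply card_le_of_diam _ _ (by positivity)
    intro a ha c hc
    rw [mem_image] at ha hc
    obtain ⟨h, hh, rfl⟩ := ha
    obtain ⟨h', hh', rfl⟩ := hc
    rw [mem_filter] at hh hh'
    have h1 := abs_le.1 (hval h hh.1)
    have h2 := abs_le.1 (hval h' hh'.1)
    rw [hh.2] at h1
    rw [hh'.2] at h2
    rw [le_div_iff₀ hγpos]
    have h3 : |(((mm h : ℤ) : ℝ) - ((mm h' : ℤ) : ℝ)) * γ| ≤ 2 * ε := by
      push_cast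
      rw [abs_le]
      constructor <;> linarith
    rw [abs_mul] at h3
    have h4 := le_abs_self (((mm h : ℤ) : ℝ) - ((mm h' : ℤ) : ℝ))
    nlinarith
  have htot : (#Hr : ℝ) ≤ (2 * ε / |γ| + 1) * (|γ| * (N / q) + 2 * ε + 1) := by
    have h1 := card_le_mul_card_image (f := bb) Hr _ hfib
    have h2 : ((⌊2 * ε / |γ| + 1⌋₊ : ℕ) : ℝ) ≤ 2 * ε / |γ| + 1 := Nat.floor_le (by positivity)
    calc (#Hr : ℝ) ≤ ((⌊2 * ε / |γ| + 1⌋₊ * #(Hr.image bb) : ℕ) : ℝ) := by exact_mod_cast h1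
      _ = ((⌊2 * ε / |γ| + 1⌋₊ : ℕ) : ℝ) * #(Hr.image bb) := by push_cast; ring
      _ ≤ _ := mul_le_mul h2 himg (Nat.cast_nonneg _) (by positivity)
  -- final computation
  set ℓ : ℝ := N / q with hℓ
  have hℓ8 : 8 * D ≤ ℓ := by
    rw [hℓ, le_div_iff₀ hq0]
    nlinarith
  have hℓ0 : 0 < ℓ := by linarith
  have h1 : ℓ ≤ D * #Hr := by
    rw [hℓ, div_le_iff₀ hq0]
    calc (N : ℝ) ≤ D * #H := hcard
      _ ≤ D * (q * #Hr) := mul_le_mul_of_nonneg_left hrc hD0.le
      _ = _ := by ring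
  have h2 : ℓ ≤ D * ((2 * ε / |γ| + 1) * (|γ| * ℓ + 2 * ε + 1)) :=
    h1.trans (mul_le_mul_of_nonneg_left htot hD0.le)
  have h3 : (2 * ε / |γ| + 1) * (|γ| * ℓ + 2 * ε + 1) =
      2 * ε * ℓ + |γ| * ℓ + (4 * ε ^ 2 + 2 * ε) / |γ| + 2 * ε + 1 := by
    field_simp; ring
  have hε16 : ε ≤ 1 / 16 := by nlinarith
  have h4 : (4 * ε ^ 2 + 2 * ε) / |γ| ≤ 9 / 4 * ε / |γ| := by
    apply div_le_div_of_nonneg_right _ hγpos.le
    nlinarith
  have h5 : |γ| * ℓ ≤ 2 * ε * ℓ := mul_le_mul_of_nonneg_right hγ hℓ0.le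
  have h6 : D * (4 * ε * ℓ) ≤ ℓ / 4 := by nlinarith
  have h7 : D * (2 * ε + 1) ≤ ℓ / 4 := by nlinarith
  have h8 : ℓ / 2 ≤ D * (9 / 4 * ε / |γ|) := by
    rw [h3] at h2
    have h9 : D * (2 * ε * ℓ + |γ| * ℓ + (4 * ε ^ 2 + 2 * ε) / |γ| + 2 * ε + 1) ≤
        D * (4 * ε * ℓ) + D * (9 / 4 * ε / |γ|) + D * (2 * ε + 1) := by
      rw [← mul_add, ← mul_add]
      apply mul_le_mul_of_nonneg_left _ hD0.le
      linarith
    linarith
  have h9 : |γ| * ℓ ≤ 9 / 2 * (ε * D) := by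
    have : D * (9 / 4 * ε / |γ|) = (9 / 4 * ε * D) / |γ| := by ring
    rw [this, le_div_iff₀ hγpos] at h8
    linarith
  rw [le_div_iff₀ hN0]
  have h10 : |γ| * N = |γ| * ℓ * q := by
    rw [hℓ]; field_simp
  rw [h10]
  calc |γ| * ℓ * q ≤ 9 / 2 * (ε * D) * (2 * D) := mul_le_mul h9 hq2 hq0.le (by positivity)
    _ ≤ _ := by nlinarith [mul_nonneg hε (sq_nonneg D)]

/-- the Weyl - van der Corput inequality in its simplest form -/
lemma vdc (F : ℕ → ℂ) (hF : ∀ n, ‖F n‖ = 1) (N : ℕ) :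
    ‖∑ n ∈ range N, F n‖ ^ 2 ≤ 2 * ∑ h ∈ range N, ‖∑ n ∈ range (N - h), F (n + h) * (starRingEnd ℂ) (F n)‖ := by
  have hA : ∀ N : ℕ, ‖∑ n ∈ range N, F n‖ ^ 2 =
      2 * (∑ n ∈ range N, ∑ m ∈ range (n + 1), F n * (starRingEnd ℂ) (F m)).re - N := by
    intro N
    induction N with
    | zero => simp
    | succ N ih =>
      rw [sum_range_succ, sum_range_succ (fun n => ∑ m ∈ range (n + 1), F n * (starRingEnd ℂ) (F m))]
      have h1 : ∀ a b : ℂ, ‖a + b‖ ^ 2 = ‖a‖ ^ 2 + ‖b‖ ^ 2 + 2 * (b * (starRingEnd ℂ) a).re := by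
        intro a b
        rw [← Complex.normSq_eq_norm_sq, ← Complex.normSq_eq_norm_sq, ← Complex.normSq_eq_norm_sq, Complex.normSq_add]
        have : (a * (starRingEnd ℂ) b).re = (b * (starRingEnd ℂ) a).re := by
          simp only [Complex.mul_re, Complex.conj_re, Complex.conj_im]; ring
        rw [this]
      rw [h1, ih, hF N, sum_range_succ, ← mul_sum, ← map_sum]
      have h2 : F N * (starRingEnd ℂ) (F N) = 1 := by
        rw [Complex.mul_conj, Complex.normSq_eq_norm_sq, hF]; norm_num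
      rw [h2]
      simp only [Complex.add_re, Complex.one_re]
      push_cast
      ring
  have hB : ∀ N : ℕ, ∑ n ∈ range N, ∑ m ∈ range (n + 1), F n * (starRingEnd ℂ) (F m) =
      ∑ h ∈ range N, ∑ n ∈ range (N - h), F (n + h) * (starRingEnd ℂ) (F n) := by
    intro N
    induction N with
    | zero => simp
    | succ N ih =>
      rw [sum_range_succ, ih]
      have h1 : ∀ h ∈ range (N + 1), ∑ n ∈ range (N + 1 - h), F (n + h) * (starRingEnd ℂ) (F n) =
          ∑ n ∈ range (N - h), F (n + h) * (starRingEnd ℂ) (F n) + F N * (starRingEnd ℂ) (F (N - h)) := by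
        intro h hh
        rw [mem_range] at hh
        rw [show N + 1 - h = (N - h) + 1 by omega, sum_range_succ, show N - h + h = N by omega]
      rw [sum_congr rfl h1, sum_add_distrib, sum_range_succ (fun h => ∑ n ∈ range (N - h), F (n + h) * (starRingEnd ℂ) (F n))]
      rw [Nat.sub_self, range_zero, sum_empty, add_zero]
      congr 1
      have h2 := sum_range_reflect (fun m => F N * (starRingEnd ℂ) (F m)) (N + 1)
      rw [← h2]
      apply sum_congr rfl
      intro m _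
      rw [show N + 1 - 1 - m = N - m by omega]
  rw [hA, hB]
  have h1 : (∑ h ∈ range N, ∑ n ∈ range (N - h), F (n + h) * (starRingEnd ℂ) (F n)).re ≤
      ∑ h ∈ range N, ‖∑ n ∈ range (N - h), F (n + h) * (starRingEnd ℂ) (F n)‖ :=
    (Complex.re_le_norm _).trans (norm_sum_le _ _)
  have h2 : (0 : ℝ) ≤ N := Nat.cast_nonneg N
  linarith

end Pool.Agent.H373R2.NB
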