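import Mathlib
import Pool.Agent.H27.G.R_seed8.H373R2.NB.Vino

namespace Pool.Agent.H373R2.NB
open Finset
open Pool.Agent.Helper602.MK (ee)
open Pool.Agent.Helper602.MK.N_J5b (ee_add ee_zero ee_conj norm_ee KD KD_far ee_int ee_nat_mul)

/-- polynomial phases of degree `d` with leading coefficient `α / d!` -/
def Ph : ℕ → ℝ → (ℕ → ℝ) → Prop
  | 0, α, φ => ∀ n, φ n = α
  | d + 1, α, φ => ∀ h : ℕ, Ph d (h * α) (fun n => φ (n + h) - φ n)

/-- inverse theorem for Weyl sums -/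
def IW (d : ℕ) : Prop := ∃ c m : ℕ, 1 ≤ c ∧ ∀ (N : ℕ) (u α : ℝ) (φ : ℕ → ℝ), 1 ≤ N → 1 ≤ u → Ph d α φ →
  (N : ℝ) ≤ u * ‖∑ n ∈ range N, ee (φ n)‖ →
  ∃ q : ℕ, 1 ≤ q ∧ (q : ℝ) ≤ c * u ^ m ∧ ∃ a : ℤ, |q * α - a| ≤ c * u ^ m / (N : ℝ) ^ d

lemma IW_one : IW 1 := by
  refine ⟨1, 1, le_rfl, fun N u α φ hN hu hφ hS => ⟨1, le_rfl, by push_cast; rw [one_mul, pow_one]; exact hu, round α, ?_⟩⟩
  have hN0 : (0 : ℝ) < N := by exact_mod_cast hN
  have hφ' : ∀ n : ℕ, φ n = φ 0 + n * α := by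
    intro n
    have h1 := hφ n 0
    simp only [zero_add] at h1
    linarith
  rw [Nat.cast_one, one_mul, one_mul, pow_one, pow_one]
  set δ := |α - round α| with hδ
  rcases (abs_nonneg (α - round α)).eq_or_lt with h0 | h0
  · rw [← hδ] at h0
    rw [← h0]; positivity
  · rw [← hδ] at h0
    have h1 : ‖∑ n ∈ range N, ee (φ n)‖ = ‖∑ n ∈ range N, ee (n * α)‖ := by
      have : ∑ n ∈ range N, ee (φ n) = ee (φ 0) * ∑ n ∈ range N, ee (n * α) := by
        rw [mul_sum]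
        apply sum_congr rfl
        intro n _
        rw [hφ' n, ee_add]
      rw [this, norm_mul, norm_ee, one_mul]
    have h2 := KD_far N α δ h0 (fun n => round_le α n)
    unfold KD at h2
    have h3 : ‖∑ n ∈ range N, ee (n * α)‖ ≤ 1 / (2 * δ) := by
      apply le_of_sq_le_sq _ (by positivity)
      rw [one_div_pow, mul_pow]
      norm_num at h2 ⊢
      exact h2
    rw [h1] at hS
    have h4 : (N : ℝ) ≤ u * (1 / (2 * δ)) := hS.trans (mul_le_mul_of_nonneg_left h3 (by linarith))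
    rw [le_div_iff₀ hN0]
    rw [mul_one_div, le_div_iff₀ (by positivity)] at h4
    nlinarith

lemma IW_step (d : ℕ) (hd : 1 ≤ d) (hIW : IW d) : IW (d + 1) := by
  obtain ⟨c, m, hc, hI⟩ := hIW
  refine ⟨(256 * c ^ 3 * 8 ^ (3 * m + d)) ^ (d + 1), (6 * m + 2 * d + 4) * (d + 1), Nat.one_le_pow _ _ (by positivity), ?_⟩
  intro N u α φ hN hu hφ hS
  have hN0 : (0 : ℝ) < N := by exact_mod_cast hN
  have hN1 : (1 : ℝ) ≤ N := by exact_mod_cast hN
  have hc1 : (1 : ℝ) ≤ c := by exact_mod_cast hc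
  have hu0 : 0 < u := by linarith
  set Q : ℝ := c * (8 * u ^ 2) ^ m with hQ
  have hu8 : 1 ≤ 8 * u ^ 2 := by nlinarith
  have hQ1 : 1 ≤ Q := by
    rw [hQ]; exact one_le_mul_of_one_le_of_one_le hc1 (one_le_pow₀ hu8)
  set D : ℝ := 4 * u ^ 2 * Q with hD
  have hD1 : 1 ≤ D := by rw [hD]; nlinarith
  set P : ℝ := (8 * u ^ 2) ^ d with hP
  have hP1 : 1 ≤ P := one_le_pow₀ hu8
  have hPu : 8 * u ^ 2 ≤ P := le_self_pow₀ hu8 (by omega)
  set T : ℝ := 16 * Q * P * D ^ 2 with hT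
  have hTeq : T = (256 * c ^ 3 * 8 ^ (3 * m + d)) * u ^ (6 * m + 2 * d + 4) := by
    rw [hT, hD, hQ, hP, mul_pow (8 : ℝ), mul_pow (8 : ℝ), ← pow_mul, ← pow_mul]
    rw [show 3 * m + d = m + m + m + d by ring, pow_add, pow_add, pow_add,
      show 6 * m + 2 * d + 4 = 2 * m + 2 * m + 2 * m + 2 * d + 4 by ring]
    rw [pow_add u, pow_add u, pow_add u, pow_add u]
    ring
  have hT1 : 1 ≤ T := by
    rw [hT]
    have h1 : 1 ≤ D ^ 2 := one_le_pow₀ hD1
    have h2 : 1 ≤ Q * P := one_le_mul_of_one_le_of_one_le hQ1 hP1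
    nlinarith [mul_le_mul h2 h1 zero_le_one (by positivity)]
  have hgoal : ((((256 * c ^ 3 * 8 ^ (3 * m + d)) ^ (d + 1) : ℕ)) : ℝ) * u ^ ((6 * m + 2 * d + 4) * (d + 1)) = T ^ (d + 1) := by
    rw [hTeq, mul_pow, ← pow_mul]; push_cast; ring
  rw [hgoal]
  have hTle : T ≤ T ^ (d + 1) := le_self_pow₀ hT1 (by omega)
  rcases lt_or_ge (N : ℝ) T with hNT | hNT
  · -- trivial case
    refine ⟨1, le_rfl, by rw [Nat.cast_one]; exact hT1.trans hTle, round α, ?_⟩
    rw [Nat.cast_one, one_mul, le_div_iff₀ (by positivity)]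
    have h1 : |α - round α| ≤ 1 / 2 := abs_sub_round α
    have h2 : (N : ℝ) ^ (d + 1) ≤ T ^ (d + 1) := pow_le_pow_left₀ hN0.le hNT.le _
    have h3 : (0 : ℝ) < (N : ℝ) ^ (d + 1) := by positivity
    nlinarith
  -- main case
  set Sh : ℕ → ℝ := fun h => ‖∑ n ∈ range (N - h), ee (φ (n + h) - φ n)‖ with hSh
  have hSh_le : ∀ h, Sh h ≤ ((N - h : ℕ) : ℝ) := by
    intro h
    simp only [hSh]
    calc ‖∑ n ∈ range (N - h), ee (φ (n + h) - φ n)‖ ≤ ∑ n ∈ range (N - h), ‖ee (φ (n + h) - φ n)‖ := norm_sum_le _ _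
      _ = _ := by simp [norm_ee]
  have hSh_leN : ∀ h, Sh h ≤ N := fun h => (hSh_le h).trans (by exact_mod_cast Nat.sub_le N h)
  have hvdc : ‖∑ n ∈ range N, ee (φ n)‖ ^ 2 ≤ 2 * ∑ h ∈ range N, Sh h := by
    have h1 := vdc (fun n => ee (φ n)) (fun n => norm_ee _) N
    refine h1.trans (le_of_eq ?_)
    congr 1
    apply sum_congr rfl
    intro h _
    simp only [hSh]
    congr 1
    apply sum_congr rfl
    intro n _
    rw [ee_conj, ← ee_add, sub_eq_add_neg]
  set H := (range N).filter (fun h => 1 ≤ h ∧ N ≤ 8 * u ^ 2 * Sh h) with hH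
  have hTu : 8 * u ^ 2 ≤ T := by
    calc 8 * u ^ 2 ≤ P := hPu
      _ ≤ _ := by
        rw [hT]
        have h1 : 1 ≤ D ^ 2 := one_le_pow₀ hD1
        have h2 : 1 ≤ Q * D ^ 2 := one_le_mul_of_one_le_of_one_le hQ1 h1
        nlinarith
  have hHcard : (N : ℝ) ≤ 4 * u ^ 2 * #H := by
    have h1 : (N : ℝ) ^ 2 ≤ u ^ 2 * (2 * ∑ h ∈ range N, Sh h) := by
      calc (N : ℝ) ^ 2 ≤ (u * ‖∑ n ∈ range N, ee (φ n)‖) ^ 2 := pow_le_pow_left₀ hN0.le hS 2
        _ = u ^ 2 * ‖∑ n ∈ range N, ee (φ n)‖ ^ 2 := by ring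
        _ ≤ _ := mul_le_mul_of_nonneg_left hvdc (by positivity)
    have h2 : ∑ h ∈ range N, Sh h ≤ N + #H * N + N * (N / (8 * u ^ 2)) := by
      calc ∑ h ∈ range N, Sh h ≤ ∑ h ∈ range N, ((if h = 0 then (N : ℝ) else 0) +
            (if 1 ≤ h ∧ N ≤ 8 * u ^ 2 * Sh h then (N : ℝ) else 0) + N / (8 * u ^ 2)) := by
            apply sum_le_sum
            intro h _
            have h3 := hSh_leN h
            have h4 : (0 : ℝ) ≤ N / (8 * u ^ 2) := by positivity
            rcases Nat.eq_zero_or_pos h with h0 | h0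
            · rw [if_pos h0, if_neg (by omega)]; linarith
            · rw [if_neg (by omega)]
              by_cases h5 : (N : ℝ) ≤ 8 * u ^ 2 * Sh h
              · rw [if_pos ⟨h0, h5⟩]; linarith
              · rw [if_neg (fun h6 => h5 h6.2)]
                push Not at h5
                have : Sh h ≤ N / (8 * u ^ 2) := by
                  rw [le_div_iff₀ (by positivity)]; linarith
                linarith
        _ = _ := by
            rw [sum_add_distrib, sum_add_distrib, sum_const, card_range, nsmul_eq_mul]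
            congr 1
            congr 1
            · rw [sum_ite_eq' (range N) 0, if_pos (mem_range.2 hN)]
            · rw [← sum_filter, sum_const, nsmul_eq_mul]
    have h3 : (N : ℝ) ^ 2 ≤ 2 * u ^ 2 * N + 2 * u ^ 2 * (#H * N) + N ^ 2 / 4 := by
      calc (N : ℝ) ^ 2 ≤ u ^ 2 * (2 * (N + #H * N + N * (N / (8 * u ^ 2)))) :=
            h1.trans (mul_le_mul_of_nonneg_left (mul_le_mul_of_nonneg_left h2 (by norm_num)) (by positivity))
        _ = _ := by field_simp; ring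
    have h4 : 2 * u ^ 2 * N ≤ N ^ 2 / 4 := by
      have : 8 * u ^ 2 ≤ N := hTu.trans hNT
      nlinarith
    have h5 : (N : ℝ) * N ≤ (4 * u ^ 2 * #H) * N := by nlinarith
    exact le_of_mul_le_mul_right h5 hN0
  -- apply the induction hypothesis
  have hch : ∀ h : ℕ, ∃ q : ℕ, h ∈ H → 1 ≤ q ∧ (q : ℝ) ≤ Q ∧ ∃ a : ℤ, |q * (h * α) - a| ≤ Q * P / (N : ℝ) ^ d := by
    intro h
    by_cases hh : h ∈ H
    · rw [hH, mem_filter, mem_range] at hh
      obtain ⟨hhN, hh1, hh2⟩ := hh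
      have h1 : Ph d (h * α) (fun n => φ (n + h) - φ n) := hφ h
      have hNh : (N : ℝ) / (8 * u ^ 2) ≤ ((N - h : ℕ) : ℝ) := by
        rw [div_le_iff₀ (by positivity)]
        have := hSh_le h
        nlinarith
      obtain ⟨q, hq1, hq2, a, ha⟩ := hI (N - h) (8 * u ^ 2) (h * α) _ (by omega) hu8 h1
        (by
          have : ((N - h : ℕ) : ℝ) ≤ N := by exact_mod_cast Nat.sub_le N h
          exact this.trans hh2)
      refine ⟨q, fun _ => ⟨hq1, hq2, a, ha.trans ?_⟩⟩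
      have h5 : 0 < ((N - h : ℕ) : ℝ) := by exact_mod_cast (by omega : 0 < N - h)
      rw [← hQ, div_le_div_iff₀ (by positivity) (by positivity), mul_assoc Q]
      apply mul_le_mul_of_nonneg_left _ (by positivity)
      rw [hP, ← mul_pow]
      apply pow_le_pow_left₀ hN0.le
      rw [div_le_iff₀ (by positivity)] at hNh
      linarith
    · exact ⟨0, fun h' => absurd h' hh⟩
  choose qq hqq using hch
  obtain ⟨q, hq, hqc⟩ : ∃ q ∈ Icc 1 ⌊Q⌋₊, (#H : ℝ) ≤ Q * #(H.filter (fun h => qq h = q)) := by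
    by_contra hcon
    push Not at hcon
    have h1 : #H = ∑ q ∈ Icc 1 ⌊Q⌋₊, #(H.filter (fun h => qq h = q)) :=
      card_eq_sum_card_fiberwise (fun h hh => by
        rw [mem_coe] at hh ⊢
        obtain ⟨a1, a2, _⟩ := hqq h hh
        exact mem_Icc.2 ⟨a1, Nat.le_floor a2⟩)
    have hQ0 : 0 < Q := by linarith
    have hfl : (⌊Q⌋₊ : ℝ) ≤ Q := Nat.floor_le hQ0.le
    have hne : (Icc 1 ⌊Q⌋₊).Nonempty := ⟨1, mem_Icc.2 ⟨le_rfl, Nat.le_floor (by rw [Nat.cast_one]; exact hQ1)⟩⟩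
    have h2 : Q * #H < Q * #H := by
      calc Q * #H = ∑ q ∈ Icc 1 ⌊Q⌋₊, Q * #(H.filter (fun h => qq h = q)) := by
            rw [← mul_sum]; congr 1; rw [h1]; push_cast; rfl
        _ < ∑ q ∈ Icc 1 ⌊Q⌋₊, (#H : ℝ) := sum_lt_sum_of_nonempty hne hcon
        _ = (⌊Q⌋₊ : ℝ) * #H := by rw [sum_const, Nat.card_Icc, nsmul_eq_mul, Nat.add_sub_cancel]
        _ ≤ _ := mul_le_mul_of_nonneg_right hfl (Nat.cast_nonneg _)
    exact lt_irrefl _ h2
  rw [mem_Icc] at hq
  set ε : ℝ := Q * P / (N : ℝ) ^ d with hε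
  have hε0 : 0 ≤ ε := by positivity
  have hNd : (N : ℝ) ≤ (N : ℝ) ^ d := le_self_pow₀ hN1 (by omega)
  have hDD : D ≤ D ^ 2 := le_self_pow₀ hD1 (by norm_num)
  have hεD : 16 * ε * D ≤ 1 := by
    have h1 : 16 * ε * D = 16 * Q * P * D / (N : ℝ) ^ d := by rw [hε]; ring
    rw [h1, div_le_one (by positivity)]
    calc 16 * Q * P * D ≤ 16 * Q * P * D ^ 2 := mul_le_mul_of_nonneg_left hDD (by positivity)
      _ = T := hT.symm
      _ ≤ N := hNT
      _ ≤ _ := hNd
  have hQP : 1 ≤ Q * P := one_le_mul_of_one_le_of_one_le hQ1 hP1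
  have hND : 16 * D ^ 2 ≤ N := by
    refine le_trans ?_ hNT
    rw [hT]
    have : 0 ≤ D ^ 2 := by positivity
    nlinarith
  obtain ⟨q', hq'1, hq'2, a, ha⟩ := vinogradov (q * α) N D ε hD1 hε0 hεD hND (H.filter (fun h => qq h = q))
    (by
      intro h hh
      rw [mem_filter] at hh
      have h1 := (mem_filter.1 hh.1).1
      rw [mem_range] at h1
      obtain ⟨_, _, b, hb⟩ := hqq h hh.1
      rw [hh.2] at hb
      refine ⟨h1, b, ?_⟩
      have e : (h : ℝ) * (q * α) = q * (h * α) := by ring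
      rw [e]; exact hb)
    (by
      calc (N : ℝ) ≤ 4 * u ^ 2 * #H := hHcard
        _ ≤ 4 * u ^ 2 * (Q * #(H.filter (fun h => qq h = q))) := mul_le_mul_of_nonneg_left hqc (by positivity)
        _ = _ := by rw [hD]; ring)
  refine ⟨q' * q, Nat.mul_pos hq'1 hq.1, ?_, a, ?_⟩
  · have hqQ : (q : ℝ) ≤ Q := (Nat.cast_le.2 hq.2).trans (Nat.floor_le (by linarith))
    calc ((q' * q : ℕ) : ℝ) = q' * q := by push_cast; rfl
      _ ≤ (2 * D) * Q := mul_le_mul hq'2 hqQ (Nat.cast_nonneg _) (by positivity)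
      _ ≤ T := by
        rw [hT]
        have h1 : D * Q ≤ D ^ 2 * (Q * P) := by
          calc D * Q ≤ D ^ 2 * Q := mul_le_mul_of_nonneg_right hDD (by positivity)
            _ ≤ D ^ 2 * (Q * P) := mul_le_mul_of_nonneg_left (by nlinarith) (by positivity)
        nlinarith [mul_pos (show 0 < D ^ 2 by positivity) (show 0 < Q * P by positivity)]
      _ ≤ _ := hTle
  · have e : ((q' * q : ℕ) : ℝ) * α = q' * (q * α) := by push_cast; ring
    rw [e]
    refine ha.trans ?_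
    have e2 : 16 * ε * D ^ 2 / N = T / (N : ℝ) ^ (d + 1) := by
      rw [hε, hT, pow_succ (N : ℝ)]; field_simp
    rw [e2]
    exact div_le_div_of_nonneg_right hTle (by positivity)

theorem IW_all (d : ℕ) (hd : 1 ≤ d) : IW d := by
  induction d, hd using Nat.le_induction with
  | base => exact IW_one
  | succ d hd ih => exact IW_step d hd ih

open Polynomial in
lemma Ph_poly (d : ℕ) : ∀ f : ℤ[X], f.natDegree ≤ d → ∀ γ : ℝ,
    Ph d (γ * ((d.factorial : ℝ) * (f.coeff d : ℤ))) (fun n => γ * ((f.eval (n : ℤ) : ℤ) : ℝ)) := by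
  induction d with
  | zero =>
    intro f hf γ n
    have h1 : f = C (f.coeff 0) := eq_C_of_natDegree_le_zero hf
    have h2 : f.eval (n : ℤ) = f.coeff 0 := by
      conv_lhs => rw [h1]
      rw [eval_C]
    show γ * ((f.eval (n : ℤ) : ℤ) : ℝ) = _
    rw [h2]; simp
  | succ d ih =>
    intro f hf γ h
    set g : ℤ[X] := taylor (h : ℤ) f - f with hg
    have hcoef : ∀ j, d ≤ j → (taylor (h : ℤ) f).coeff j = f.coeff j + (if j = d then ((d : ℤ) + 1) * f.coeff (d + 1) * h else 0) := by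
      intro j hj
      rw [taylor_coeff]
      have h1 : (hasseDeriv j f).natDegree < 2 := by
        have := natDegree_hasseDeriv_le f j
        omega
      rw [eval_eq_sum_range' h1, sum_range_succ, sum_range_succ, sum_range_zero, hasseDeriv_coeff, hasseDeriv_coeff]
      rcases eq_or_ne j d with h2 | h2
      · subst h2
        rw [if_pos rfl, zero_add, zero_add, Nat.choose_self, add_comm 1 j, Nat.choose_succ_self_right]
        push_cast
        ring
      · rw [if_neg h2]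
        have h3 : f.coeff (1 + j) = 0 := coeff_eq_zero_of_natDegree_lt (by omega)
        rw [h3, zero_add, zero_add, Nat.choose_self]
        push_cast
        ring
    have hgd : g.natDegree ≤ d := by
      rw [natDegree_le_iff_coeff_eq_zero]
      intro j hj
      rw [hg, coeff_sub, hcoef j (by omega), if_neg (by omega)]
      ring
    have hgc : g.coeff d = ((d : ℤ) + 1) * f.coeff (d + 1) * h := by
      rw [hg, coeff_sub, hcoef d le_rfl, if_pos rfl]; ring
    have h1 := ih g hgd γ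
    have h2 : (fun n : ℕ => γ * ((g.eval (n : ℤ) : ℤ) : ℝ)) = fun n : ℕ =>
        γ * ((f.eval ((n + h : ℕ) : ℤ) : ℤ) : ℝ) - γ * ((f.eval (n : ℤ) : ℤ) : ℝ) := by
      funext n
      rw [hg, eval_sub, taylor_eval]
      push_cast
      ring
    have h3 : γ * ((d.factorial : ℝ) * (g.coeff d : ℤ)) = (h : ℝ) * (γ * (((d + 1).factorial : ℝ) * (f.coeff (d + 1) : ℤ))) := by
      rw [hgc, Nat.factorial_succ]; push_cast; ring
    rw [h2, h3] at h1
    exact h1

end Pool.Agent.H373R2.NB
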